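import Pool.Agent.WanRH.FF.Ord

/-!
# Weak approximation, and the bound for the degree of the zero divisor
-/

namespace Pool.Agent.WanRH

open IntermediateField Polynomial

universe u v

variable {k : Type u} {F : Type v} [Field k] [Field F] [Algebra k F] [IsFunctionField k F]

namespace Place

lemma ord_add_of_lt (x : Place k F) {a b : F} (ha : a ≠ 0) (hb : b ≠ 0) (h : x.ord a < x.ord b) :
    a + b ≠ 0 ∧ x.ord (a + b) = x.ord a := by
  have h1 : x.val b < x.val a := by
    rw [x.val_eq ha, x.val_eq hb, x.zpow_lt_iff]; exact h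
  have h2 : x.val (a + b) = x.val a := Valuation.map_add_eq_of_lt_left _ h1
  have h3 : a + b ≠ 0 := by
    intro h0
    rw [h0, map_zero] at h2
    exact (x.val_pos ha).ne h2
  exact ⟨h3, (x.ord_eq_iff h3).mpr (h2.trans (x.val_eq ha))⟩

lemma ord_add_of_ne (x : Place k F) {a b : F} (ha : a ≠ 0) (hb : b ≠ 0) (h : x.ord a ≠ x.ord b) :
    a + b ≠ 0 ∧ x.ord (a + b) = min (x.ord a) (x.ord b) := by
  rcases lt_or_gt_of_ne h with h | h
  · rw [min_eq_left h.le]
    exact x.ord_add_of_lt ha hb h
  · rw [min_eq_right h.le, add_comm]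
    exact x.ord_add_of_lt hb ha h

lemma exists_sep_two {x y : Place k F} (h : x ≠ y) : ∃ w : F, w ≠ 0 ∧ 0 < x.ord w ∧ y.ord w < 0 := by
  obtain ⟨u, hux, huy⟩ : ∃ u ∈ x.ring, u ∉ y.ring := by
    by_contra hcon
    push Not at hcon
    exact h (eq_of_ring_le hcon)
  obtain ⟨v, hvy, hvx⟩ : ∃ v ∈ y.ring, v ∉ x.ring := by
    by_contra hcon
    push Not at hcon
    exact h (eq_of_ring_le hcon).symm
  have hu0 : u ≠ 0 := by
    rintro rfl; exact huy y.ring.zero_mem
  have hv0 : v ≠ 0 := by
    rintro rfl; exact hvx x.ring.zero_mem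
  rw [mem_ring_iff] at hux huy hvx hvy
  push Not at huy hvx
  have h1 := hux.resolve_left hu0
  have h2 := hvy.resolve_left hv0
  refine ⟨u / v, div_ne_zero hu0 hv0, ?_, ?_⟩
  · rw [x.ord_div hu0 hv0]; linarith [hvx.2]
  · rw [y.ord_div hu0 hv0]; linarith [huy.2]

lemma exists_sep (x : Place k F) (S : Finset (Place k F)) (hx : x ∉ S) :
    ∃ w : F, w ≠ 0 ∧ 0 < x.ord w ∧ ∀ y ∈ S, y.ord w < 0 := by
  classical
  induction S using Finset.induction_on with
  | empty => exact ⟨x.unif, x.unif_ne_zero, by simp, by simp⟩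
  | insert y S hy ih =>
    rw [Finset.mem_insert, not_or] at hx
    obtain ⟨w, hw0, hwx, hwS⟩ := ih hx.2
    obtain ⟨w', hw0', hwx', hwy'⟩ := exists_sep_two hx.1
    -- choose a good exponent
    have hbad : Set.Finite (⋃ z ∈ (insert y S : Finset (Place k F)),
        {r : ℕ | (r : ℤ) * z.ord w' = z.ord w}) := by
      refine Set.Finite.biUnion (Finset.finite_toSet _) fun z hz => ?_
      refine Set.Subsingleton.finite ?_
      intro r hr s hs
      simp only [Set.mem_ofPred_eq] at hr hs
      have hz' : z.ord w' ≠ 0 := by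
        intro h0
        rw [h0, mul_zero] at hr
        rcases Finset.mem_insert.mp hz with h | h
        · rw [h] at h0; omega
        · have := hwS z h; omega
      have := mul_right_cancel₀ hz' (hr.trans hs.symm)
      exact_mod_cast this
    obtain ⟨r, hr⟩ := (hbad.union (Set.finite_singleton 0)).exists_notMem
    rw [Set.mem_union, not_or] at hr
    obtain ⟨hr, hr0⟩ := hr
    have hr0' : 0 < r := Nat.pos_of_ne_zero (by simpa using hr0)
    have hr' : ∀ z ∈ (insert y S : Finset (Place k F)), z.ord w ≠ z.ord (w' ^ r) := by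
      intro z hz he
      apply hr
      simp only [Set.mem_iUnion]
      refine ⟨z, hz, ?_⟩
      rw [z.ord_pow hw0'] at he
      exact he.symm
    have hwr : w' ^ r ≠ 0 := pow_ne_zero _ hw0'
    have hy1 := y.ord_add_of_ne hw0 hwr (hr' y (Finset.mem_insert_self _ _))
    refine ⟨w + w' ^ r, hy1.1, ?_, ?_⟩
    · have h1 : w ∈ x.fil 1 := (x.mem_fil_of_ne_zero hw0).mpr (by omega)
      have h2 : w' ^ r ∈ x.fil 1 := by
        rw [x.mem_fil_of_ne_zero hwr, x.ord_pow hw0']
        have : (1 : ℤ) ≤ r := by exact_mod_cast hr0'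
        nlinarith
      have h3 := (x.fil 1).add_mem h1 h2
      rw [x.mem_fil_of_ne_zero hy1.1] at h3
      omega
    · intro z hz
      have h1 := z.ord_add_of_ne hw0 hwr (hr' z hz)
      rw [h1.2]
      rcases Finset.mem_insert.mp hz with h | h
      · apply lt_of_le_of_lt (min_le_right _ _)
        rw [h, y.ord_pow hw0']
        have : (1 : ℤ) ≤ r := by exact_mod_cast hr0'
        nlinarith
      · exact lt_of_le_of_lt (min_le_left _ _) (hwS z h)

lemma exists_idem (x : Place k F) (S : Finset (Place k F)) (hx : x ∉ S) (N : ℕ) :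
    ∃ e : F, e - 1 ∈ x.fil N ∧ ∀ y ∈ S, e ∈ y.fil N := by
  obtain ⟨w, hw0, hwx, hwS⟩ := exists_sep x S hx
  have hwN : w ^ (N + 1) ≠ 0 := pow_ne_zero _ hw0
  have h1 := x.ord_add_of_lt (a := 1) (b := w ^ (N + 1)) one_ne_zero hwN (by
    rw [x.ord_one, x.ord_pow hw0]; push_cast; positivity)
  rw [x.ord_one] at h1
  refine ⟨(1 + w ^ (N + 1))⁻¹, ?_, ?_⟩
  · have h2 : (1 + w ^ (N + 1))⁻¹ - 1 = (-w ^ (N + 1)) / (1 + w ^ (N + 1)) := by
      rw [eq_div_iff h1.1, sub_mul, inv_mul_cancel₀ h1.1]; ring
    rw [h2, x.mem_fil_of_ne_zero (div_ne_zero (neg_ne_zero.mpr hwN) h1.1),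
      x.ord_div (neg_ne_zero.mpr hwN) h1.1, h1.2, x.ord_neg, x.ord_pow hw0]
    push_cast
    nlinarith
  · intro y hy
    have h3 := y.ord_add_of_lt (a := w ^ (N + 1)) (b := 1) hwN one_ne_zero (by
      rw [y.ord_one, y.ord_pow hw0]; push_cast
      have := hwS y hy
      nlinarith)
    rw [add_comm] at h3
    rw [y.mem_fil_of_ne_zero (inv_ne_zero h1.1), y.ord_inv, h3.2, y.ord_pow hw0]
    push_cast
    have := hwS y hy
    nlinarith

/-- Weak approximation. -/
theorem weak_approx (S : Finset (Place k F)) (b : Place k F → F) (N : ℤ) :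
    ∃ a : F, ∀ x ∈ S, a - b x ∈ x.fil N := by
  classical
  let M : ℕ := (S ×ˢ S).sup fun p => (N - p.2.ord (b p.1)).toNat
  have hM : ∀ x ∈ S, ∀ y ∈ S, N ≤ M + y.ord (b x) := by
    intro x hx y hy
    have h1 : (N - y.ord (b x)).toNat ≤ M :=
      Finset.le_sup (f := fun p : Place k F × Place k F => (N - p.2.ord (b p.1)).toNat)
        (Finset.mk_mem_product hx hy)
    omega
  have he : ∀ x : Place k F, ∃ e : F, e - 1 ∈ x.fil M ∧ ∀ y ∈ S.erase x, e ∈ y.fil M :=
    fun x => exists_idem x (S.erase x) (Finset.notMem_erase x S) M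
  choose e he1 he2 using he
  refine ⟨∑ x ∈ S, b x * e x, fun y hy => ?_⟩
  have hfil : ∀ x ∈ S, ∀ c ∈ y.fil M, b x * c ∈ y.fil N := by
    intro x hx c hc
    have h1 : b x ∈ y.fil (y.ord (b x)) := by
      rw [y.mem_fil]; right; exact le_rfl
    exact y.fil_anti (by have := hM x hx y hy; omega) (y.mul_mem_fil h1 hc)
  rw [← Finset.add_sum_erase S _ hy]
  have : b y * e y + ∑ x ∈ S.erase y, b x * e x - b y =
      b y * (e y - 1) + ∑ x ∈ S.erase y, b x * e x := by ring
  rw [this]
  refine (y.fil N).add_mem (hfil y hy _ (he1 y)) ((y.fil N).sum_mem fun x hx => ?_)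
  have hxS := (Finset.mem_erase.mp hx)
  exact hfil x hxS.2 _ (he2 x y (Finset.mem_erase.mpr ⟨hxS.1.symm, hy⟩))

lemma exists_basis_lift (x : Place k F) (j : ℤ) : ∃ c : Fin x.degree → F, (∀ i, c i ∈ x.fil j) ∧
    ∀ l : Fin x.degree → k, (∑ i, algebraMap k F (l i) * c i) ∈ x.fil (j + 1) → l = 0 := by
  let β : Module.Basis (Fin x.degree) k x.ResidueField := Module.finBasis k x.ResidueField
  have hsur := x.lead_surjective j
  choose f hf using hsur
  refine ⟨fun i => f (β i), fun i => (f (β i)).2, fun l hl => ?_⟩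
  have h1 : x.lead j (∑ i, l i • f (β i)) = 0 := by
    rw [x.lead_eq_zero_iff]
    have h2 : ((∑ i, l i • f (β i) : x.fil j) : F) = ∑ i, algebraMap k F (l i) * (f (β i) : F) := by
      rw [Submodule.coe_sum]
      refine Finset.sum_congr rfl fun i _ => ?_
      rw [Submodule.coe_smul, Algebra.smul_def]
    rw [h2]; exact hl
  rw [map_sum] at h1
  have h2 : ∑ i, l i • β i = 0 := by
    rw [← h1]
    refine Finset.sum_congr rfl fun i _ => ?_
    rw [map_smul, hf]
  have h3 := Fintype.linearIndependent_iff.mp β.linearIndependent l h2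
  exact funext h3

lemma exists_family_one (x : Place k F) (n : ℕ) : ∃ c : Fin n × Fin x.degree → F,
    (∀ i, c i ∈ x.fil 0) ∧ ∀ l : Fin n × Fin x.degree → k,
      (∑ i, algebraMap k F (l i) * c i) ∈ x.fil n → l = 0 := by
  classical
  have hb := fun j : ℕ => x.exists_basis_lift j
  choose b hb1 hb2 using hb
  refine ⟨fun i => b i.1 i.2, fun i => x.fil_anti (by positivity) (hb1 i.1 i.2), fun l hl => ?_⟩
  have key : ∀ m : ℕ, ∀ hm : m < n, ∀ i : Fin x.degree, l (⟨m, hm⟩, i) = 0 := by
    intro m
    induction m using Nat.strong_induction_on with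
    | _ m ih =>
      intro hm
      have h1 : (fun i => l (⟨m, hm⟩, i)) = 0 := by
        apply hb2 m
        rw [Fintype.sum_prod_type, ← Finset.add_sum_erase Finset.univ _
          (Finset.mem_univ (⟨m, hm⟩ : Fin n))] at hl
        simp only at hl
        have hl' := x.fil_anti (show ((m : ℤ) + 1) ≤ n by exact_mod_cast hm) hl
        have h2 : (∑ j ∈ Finset.univ.erase (⟨m, hm⟩ : Fin n), ∑ i,
            algebraMap k F (l (j, i)) * b j i) ∈ x.fil (m + 1) := by
          refine Submodule.sum_mem _ fun j hj => Submodule.sum_mem _ fun i _ => ?_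
          rcases lt_trichotomy (j : ℕ) m with h | h | h
          · have := ih j h j.2 i
            have h' : l (j, i) = 0 := this
            rw [h', map_zero, zero_mul]
            exact Submodule.zero_mem _
          · exact absurd (Fin.ext h) (Finset.mem_erase.mp hj).1
          · rw [← Algebra.smul_def]
            refine Submodule.smul_mem _ _ ?_
            exact x.fil_anti (by omega) (hb1 j i)
        have h3 := (x.fil ((m : ℤ) + 1)).sub_mem hl' h2
        rwa [add_sub_cancel_right] at h3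
      intro i
      exact congrFun h1 i
  funext ⟨⟨m, hm⟩, i⟩
  exact key m hm i

lemma exists_family (S : Finset (Place k F)) (n : Place k F → ℕ) :
    ∃ c : (Σ x : S, Fin (n x) × Fin x.1.degree) → F, (∀ i, ∀ x ∈ S, c i ∈ x.fil 0) ∧
      ∀ l : (Σ x : S, Fin (n x) × Fin x.1.degree) → k,
      (∀ x ∈ S, (∑ i, algebraMap k F (l i) * c i) ∈ x.fil (n x)) → l = 0 := by
  classical
  have h1 := fun x : S => x.1.exists_family_one (n x)
  choose b hb1 hb2 using h1
  let N : ℕ := S.sup n
  have hN : ∀ x ∈ S, n x ≤ N := fun x hx => Finset.le_sup hx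
  have h2 : ∀ i : (Σ x : S, Fin (n x) × Fin x.1.degree), ∃ a : F, ∀ y ∈ S,
      a - (if y = i.1.1 then b i.1 i.2 else 0) ∈ y.fil N := fun i => weak_approx S _ N
  choose c hc using h2
  refine ⟨c, ?_, ?_⟩
  · intro i x hx
    have h3 := x.fil_anti (show (0 : ℤ) ≤ N by positivity) (hc i x hx)
    have h4 : (if x = i.1.1 then b i.1 i.2 else 0) ∈ x.fil 0 := by
      split_ifs with h
      · rw [h]; exact hb1 i.1 i.2
      · exact Submodule.zero_mem _
    have := (x.fil 0).add_mem h3 h4
    rwa [sub_add_cancel] at this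
  · intro l hl
    have key : ∀ x : S, (fun i => l ⟨x, i⟩) = 0 := by
      intro x
      apply hb2 x
      have h3 := hl x x.2
      have h4 : (∑ i, algebraMap k F (l i) * (c i - (if x.1 = i.1.1 then b i.1 i.2 else 0))) ∈
          x.1.fil (n x) := by
        refine Submodule.sum_mem _ fun i _ => ?_
        rw [← Algebra.smul_def]
        refine Submodule.smul_mem _ _ ?_
        exact x.1.fil_anti (by exact_mod_cast hN x x.2) (hc i x x.2)
      have h5 := (x.1.fil (n x)).sub_mem h3 h4
      have h6 : (∑ i, algebraMap k F (l i) * c i) -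
          (∑ i, algebraMap k F (l i) * (c i - (if x.1 = i.1.1 then b i.1 i.2 else 0))) =
          ∑ i, algebraMap k F (l ⟨x, i⟩) * b x i := by
        rw [← Finset.sum_sub_distrib]
        have h7 : ∀ i : (Σ x : S, Fin (n x) × Fin x.1.degree),
            algebraMap k F (l i) * c i -
              algebraMap k F (l i) * (c i - (if x.1 = i.1.1 then b i.1 i.2 else 0)) =
            algebraMap k F (l i) * (if x.1 = i.1.1 then b i.1 i.2 else 0) := by
          intro i; ring
        rw [Finset.sum_congr rfl fun i _ => h7 i, Fintype.sum_sigma,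
          Finset.sum_eq_single x]
        · refine Finset.sum_congr rfl fun i _ => ?_
          rw [if_pos rfl]
        · intro z _ hz
          refine Finset.sum_eq_zero fun i _ => ?_
          rw [if_neg, mul_zero]
          intro h
          exact hz (Subtype.ext h.symm)
        · intro h
          exact absurd (Finset.mem_univ _) h
      rw [h6] at h5
      exact h5
    funext ⟨x, i⟩
    exact congrFun (key x) i

end Place

/-- The degree of (any part of) the zero divisor of `y` is at most `[F : k(y)]`. -/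
theorem sum_ord_mul_degree_le {y : F} (hy : Transcendental k y) (S : Finset (Place k F))
    (hS : ∀ x ∈ S, 0 ≤ x.ord y) :
    ∑ x ∈ S, x.ord y * (x.degree : ℤ) ≤ Module.finrank k⟮y⟯ F := by
  classical
  have hy0 : y ≠ 0 := by
    rintro rfl
    exact hy isAlgebraic_zero
  obtain ⟨c, hc1, hc2⟩ := Place.exists_family S (fun x => (x.ord y).toNat)
  let R : Subring F := ⨅ x ∈ S, x.ring.toSubring
  have hR : ∀ a, a ∈ R ↔ ∀ x ∈ S, a ∈ x.ring := by
    intro a
    simp only [R, Subring.mem_iInf]
    rfl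
  have key := card_le_finrank_adjoin (k := k) R (fun c => (hR _).mpr fun x _ => x.const_mem c)
    hy ((hR y).mpr fun x hx => x.mem_ring_iff.mpr (Or.inr (hS x hx))) c
    (fun i => (hR _).mpr fun x hx => x.mem_ring_iff_fil.mpr (hc1 i x hx)) ?_
  · have h1 : ∑ x ∈ S, x.ord y * (x.degree : ℤ) =
        (Fintype.card (Σ x : S, Fin (x.1.ord y).toNat × Fin x.1.degree) : ℤ) := by
      rw [Fintype.card_sigma]
      push_cast
      simp only [Fintype.card_prod, Fintype.card_fin]
      rw [← Finset.sum_coe_sort]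
      refine Finset.sum_congr rfl fun x _ => ?_
      push_cast
      rw [Int.toNat_of_nonneg (hS x x.2)]
    rw [h1]
    exact_mod_cast key
  · rintro l ⟨r, hr, hsum⟩
    apply hc2
    intro x hx
    rw [hsum]
    have h1 : y ∈ x.fil (x.ord y).toNat := by
      rw [x.mem_fil_of_ne_zero hy0]
      have := hS x hx
      omega
    have h2 : r ∈ x.fil 0 := x.mem_ring_iff_fil.mp ((hR r).mp hr x hx)
    have := x.mul_mem_fil h1 h2
    rwa [add_zero] at this

end Pool.Agent.WanRH
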