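import Pool.Agent.WanRH.FF.Places

/-!
# Divisors, Riemann–Roch spaces, the product formula
-/

namespace Pool.Agent.WanRH

open IntermediateField Polynomial

universe u v

variable {k : Type u} {F : Type v} [Field k] [Field F] [Algebra k F] 

variable (k F) in
/-- Divisors. -/
abbrev Div : Type _ := Place k F →₀ ℤ

/-- Degree of a divisor. -/
noncomputable def Div.deg (D : Div k F) : ℤ := D.sum fun x n => n * (x.degree : ℤ)

lemma Div.deg_add (D E : Div k F) : (D + E).deg = D.deg + E.deg := by
  classical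
  unfold Div.deg
  rw [Finsupp.sum_add_index']
  · intro x; simp
  · intro x a b; ring

@[simp] lemma Div.deg_zero : (0 : Div k F).deg = 0 := by simp [Div.deg]

lemma Div.deg_neg (D : Div k F) : (-D).deg = - D.deg := by
  have h := Div.deg_add D (-D)
  rw [add_neg_cancel, Div.deg_zero] at h
  linarith

lemma Div.deg_sub (D E : Div k F) : (D - E).deg = D.deg - E.deg := by
  rw [sub_eq_add_neg, Div.deg_add, Div.deg_neg]; ring

lemma Div.deg_single (x : Place k F) (n : ℤ) :
    Div.deg (Finsupp.single x n : Div k F) = n * x.degree := by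
  unfold Div.deg
  rw [Finsupp.sum_single_index]; simp

lemma Div.deg_nsmul (n : ℕ) (D : Div k F) : (n • D).deg = n * D.deg := by
  induction n with
  | zero => simp
  | succ n ih => rw [succ_nsmul, Div.deg_add, ih]; push_cast; ring

lemma Div.deg_nonneg {D : Div k F} (h : 0 ≤ D) : 0 ≤ D.deg := by
  unfold Div.deg Finsupp.sum
  exact Finset.sum_nonneg fun x _ => mul_nonneg (h x) (by positivity)

lemma Div.deg_mono {D E : Div k F} (h : D ≤ E) : D.deg ≤ E.deg := by
  have := Div.deg_nonneg (sub_nonneg.mpr h)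
  rw [Div.deg_sub] at this
  linarith

variable [IsFunctionField k F]

/-- Induction on a divisor upwards from `D`. -/
lemma Div.le_induction {D : Div k F} {P : Div k F → Prop} (h0 : P D)
    (hs : ∀ E : Div k F, ∀ x, D ≤ E → P E → P (E + Finsupp.single x 1)) :
    ∀ E : Div k F, D ≤ E → P E := by
  classical
  have key : ∀ m : ℕ, ∀ E : Div k F, D ≤ E → E.deg - D.deg ≤ m → P E := by
    intro m
    induction m with
    | zero =>
      intro E hE hm
      have hED : E = D := by
        by_contra hne
        obtain ⟨x, hx⟩ := Finsupp.ne_iff.mp hne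
        have h1 : D x + 1 ≤ E x := by
          have := hE x
          omega
        have h2 : D + Finsupp.single x 1 ≤ E := by
          intro y
          rw [Finsupp.add_apply]
          by_cases hy : y = x
          · rw [hy, Finsupp.single_eq_same]; exact h1
          · rw [Finsupp.single_eq_of_ne hy, add_zero]; exact hE y
        have h3 := Div.deg_mono h2
        rw [Div.deg_add, Div.deg_single] at h3
        have h4 : (1 : ℤ) ≤ x.degree := by exact_mod_cast x.degree_pos
        push_cast at hm
        linarith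
      rw [hED]; exact h0
    | succ m ih =>
      intro E hE hm
      by_cases hED : E = D
      · rw [hED]; exact h0
      · obtain ⟨x, hx⟩ := Finsupp.ne_iff.mp hED
        have h1 : D x + 1 ≤ E x := by
          have := hE x
          omega
        have h2 : D ≤ E - Finsupp.single x 1 := by
          intro y
          rw [Finsupp.sub_apply]
          by_cases hy : y = x
          · rw [hy, Finsupp.single_eq_same]; omega
          · rw [Finsupp.single_eq_of_ne hy, sub_zero]; exact hE y
        have h4 : (1 : ℤ) ≤ x.degree := by exact_mod_cast x.degree_pos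
        have h5 := ih (E - Finsupp.single x 1) h2 (by
          rw [Div.deg_sub, Div.deg_single]; push_cast at hm; linarith)
        have h6 := hs _ x h2 h5
        rwa [sub_add_cancel] at h6
  intro E hE
  exact key (E.deg - D.deg).toNat E hE (Int.self_le_toNat _)

/-- The Riemann–Roch space. -/
noncomputable def LL (D : Div k F) : Submodule k F := ⨅ x : Place k F, x.fil (- D x)

lemma mem_LL {D : Div k F} {a : F} : a ∈ LL D ↔ ∀ x : Place k F, a ∈ x.fil (- D x) := by
  simp [LL]

lemma LL_mono {D E : Div k F} (h : D ≤ E) : LL D ≤ LL E := by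
  intro a ha
  rw [mem_LL] at *
  intro x
  exact x.fil_anti (by have := h x; omega) (ha x)

lemma mem_LL_zero {a : F} : a ∈ LL (0 : Div k F) ↔ a ∈ Set.range (algebraMap k F) := by
  constructor
  · intro ha
    rw [mem_LL] at ha
    apply mem_range_of_forall_mem_ring
    intro x
    have := ha x
    rwa [Finsupp.zero_apply, neg_zero, ← x.mem_ring_iff_fil] at this
  · rintro ⟨c, rfl⟩
    rw [mem_LL]
    intro x
    rw [Finsupp.zero_apply, neg_zero, ← x.mem_ring_iff_fil]
    exact x.const_mem c

lemma LL_zero_eq : LL (0 : Div k F) = Submodule.span k {1} := by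
  ext a
  rw [mem_LL_zero, Submodule.mem_span_singleton]
  constructor
  · rintro ⟨c, rfl⟩
    exact ⟨c, (Algebra.algebraMap_eq_smul_one c).symm⟩
  · rintro ⟨c, rfl⟩
    exact ⟨c, Algebra.algebraMap_eq_smul_one c⟩

/-- The leading coefficient map at `x` on `L(D)`. -/
noncomputable def leadLL (D : Div k F) (x : Place k F) : LL D →ₗ[k] x.ResidueField :=
  x.lead (- D x) ∘ₗ Submodule.inclusion (iInf_le _ x)

lemma leadLL_eq_zero_iff (D : Div k F) (x : Place k F) (a : LL (D + Finsupp.single x 1)) :
    leadLL _ x a = 0 ↔ (a : F) ∈ LL D := by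
  classical
  have h1 : leadLL _ x a = 0 ↔ (a : F) ∈ x.fil (- (D + Finsupp.single x 1 : Div k F) x + 1) :=
    x.lead_eq_zero_iff _
  have h2 : - (D + Finsupp.single x 1 : Div k F) x + 1 = - D x := by
    rw [Finsupp.add_apply, Finsupp.single_eq_same]; ring
  rw [h1, h2, mem_LL]
  constructor
  · intro h y
    by_cases hy : y = x
    · rw [hy]; exact h
    · have := mem_LL.mp a.2 y
      rwa [Finsupp.add_apply, Finsupp.single_eq_of_ne hy, add_zero] at this
  · intro h
    exact h x

lemma ker_leadLL (D : Div k F) (x : Place k F) :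
    LinearMap.ker (leadLL (D + Finsupp.single x 1) x) =
      (LL D).submoduleOf (LL (D + Finsupp.single x 1)) := by
  ext a
  rw [LinearMap.mem_ker, leadLL_eq_zero_iff]
  rfl

omit [IsFunctionField k F] in
lemma le_add_single (D : Div k F) (x : Place k F) : D ≤ D + Finsupp.single x 1 := by
  classical
  intro y
  rw [Finsupp.add_apply]
  by_cases hy : y = x
  · rw [hy, Finsupp.single_eq_same]; omega
  · rw [Finsupp.single_eq_of_ne hy]; omega

/-- The equivalence `ker ≃ L(D)`. -/
noncomputable def kerEquiv (D : Div k F) (x : Place k F) :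
    LinearMap.ker (leadLL (D + Finsupp.single x 1) x) ≃ₗ[k] LL D :=
  (LinearEquiv.ofEq _ _ (ker_leadLL D x)).trans
    (Submodule.submoduleOfEquivOfLe (LL_mono (le_add_single D x)))

lemma finite_LL_step (D : Div k F) (x : Place k F) [Module.Finite k (LL D)] :
    Module.Finite k (LL (D + Finsupp.single x 1)) := by
  let φ := leadLL (D + Finsupp.single x 1) x
  have h1 : Module.Finite k (LinearMap.ker φ) := Module.Finite.equiv (kerEquiv D x).symm
  have h2 : Module.Finite k (LL (D + Finsupp.single x 1) ⧸ LinearMap.ker φ) :=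
    Module.Finite.equiv φ.quotKerEquivRange.symm
  exact Module.Finite.of_submodule_quotient (LinearMap.ker φ)

instance moduleFinite_LL (D : Div k F) : Module.Finite k (LL D) := by
  have h0 : Module.Finite k (LL (0 : Div k F)) := by
    rw [LL_zero_eq]
    infer_instance
  have h1 : Module.Finite k (LL (D ⊔ 0)) :=
    Div.le_induction (D := 0) (P := fun E => Module.Finite k (LL E)) h0
      (fun E x _ hE => finite_LL_step E x) _ le_sup_right
  exact Module.Finite.of_injective (Submodule.inclusion (LL_mono (le_sup_left : D ≤ D ⊔ 0)))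
    (Submodule.inclusion_injective _)

lemma finrank_LL_zero : Module.finrank k (LL (0 : Div k F)) = 1 := by
  rw [LL_zero_eq]
  exact finrank_span_singleton one_ne_zero

lemma finrank_step (D : Div k F) (x : Place k F) :
    Module.finrank k (LL (D + Finsupp.single x 1)) =
      Module.finrank k (LinearMap.range (leadLL (D + Finsupp.single x 1) x)) +
        Module.finrank k (LL D) := by
  rw [← LinearMap.finrank_range_add_finrank_ker (leadLL (D + Finsupp.single x 1) x),
    (kerEquiv D x).finrank_eq]

lemma finrank_step_le (D : Div k F) (x : Place k F) :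
    Module.finrank k (LL (D + Finsupp.single x 1)) ≤ x.degree + Module.finrank k (LL D) := by
  rw [finrank_step]
  exact Nat.add_le_add_right (Submodule.finrank_le _) _

/-- `i(D) = deg D - ℓ(D)`. -/
noncomputable def idx (D : Div k F) : ℤ := D.deg - Module.finrank k (LL D)

lemma idx_mono {D E : Div k F} (h : D ≤ E) : idx D ≤ idx E := by
  refine Div.le_induction (D := D) (P := fun E => idx D ≤ idx E) le_rfl ?_ E h
  intro E x _ ih
  refine ih.trans ?_
  unfold idx
  have h1 := finrank_step_le E x
  rw [Div.deg_add, Div.deg_single]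
  have h2 : (Module.finrank k (LL (E + Finsupp.single x 1)) : ℤ) ≤
      x.degree + Module.finrank k (LL E) := by exact_mod_cast h1
  linarith

lemma idx_zero : idx (0 : Div k F) = -1 := by
  unfold idx
  rw [finrank_LL_zero, Div.deg_zero]; norm_num

lemma finrank_LL_le_of_nonneg {D : Div k F} (h : 0 ≤ D) :
    (Module.finrank k (LL D) : ℤ) ≤ D.deg + 1 := by
  have := idx_mono h
  rw [idx_zero] at this
  unfold idx at this
  linarith

/-- Principal divisor (zero for `a = 0`). -/
noncomputable def pdiv (a : F) : Div k F :=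
  Finsupp.onFinset (finite_ord_ne_zero (k := k) a).toFinset (fun x => x.ord a) (by simp)

@[simp] lemma pdiv_apply (a : F) (x : Place k F) : pdiv a x = x.ord a := rfl

lemma pdiv_mul {a b : F} (ha : a ≠ 0) (hb : b ≠ 0) :
    pdiv (k := k) (a * b) = pdiv a + pdiv b := by
  ext x
  rw [Finsupp.add_apply]
  exact x.ord_mul ha hb

lemma pdiv_inv (a : F) : pdiv (k := k) a⁻¹ = - pdiv a := by
  ext x
  rw [Finsupp.neg_apply]
  exact x.ord_inv a

lemma pdiv_pow {a : F} (ha : a ≠ 0) (n : ℕ) : pdiv (k := k) (a ^ n) = n • pdiv a := by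
  ext x
  rw [Finsupp.smul_apply]
  change x.ord (a ^ n) = n • x.ord a
  rw [x.ord_pow ha]; simp

lemma pdiv_const (c : k) : pdiv (k := k) (algebraMap k F c) = 0 := by
  ext x
  exact x.ord_const c

lemma mem_LL_iff {D : Div k F} {a : F} (ha : a ≠ 0) : a ∈ LL D ↔ 0 ≤ D + pdiv a := by
  rw [mem_LL]
  constructor
  · intro h x
    have := (x.mem_fil_of_ne_zero ha).mp (h x)
    rw [Finsupp.add_apply, pdiv_apply, Finsupp.zero_apply]
    linarith
  · intro h x
    have := h x
    rw [Finsupp.add_apply, pdiv_apply, Finsupp.zero_apply] at this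
    rw [x.mem_fil_of_ne_zero ha]
    linarith

omit [IsFunctionField k F] in
lemma finrank_adjoin_inv (y : F) : Module.finrank k⟮y⁻¹⟯ F = Module.finrank k⟮y⟯ F := by
  have : k⟮y⁻¹⟯ = k⟮y⟯ := by
    apply le_antisymm
    · rw [adjoin_simple_le_iff]
      exact inv_mem (mem_adjoin_simple_self k y)
    · rw [adjoin_simple_le_iff]
      have := inv_mem (mem_adjoin_simple_self k y⁻¹)
      rwa [inv_inv] at this
  rw [this]

/-- Upper bound for the degree of the zero divisor. -/
lemma deg_pdiv_sup_le {y : F} (hy : Transcendental k y) :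
    Div.deg (pdiv (k := k) y ⊔ 0) ≤ Module.finrank k⟮y⟯ F := by
  have h1 := sum_ord_mul_degree_le hy (pdiv (k := k) y ⊔ 0).support (fun x hx => by
    rw [Finsupp.mem_support_iff, Finsupp.sup_apply, pdiv_apply, Finsupp.zero_apply] at hx
    by_contra hneg
    push Not at hneg
    exact hx (sup_eq_right.mpr hneg.le))
  refine le_trans (le_of_eq ?_) h1
  unfold Div.deg Finsupp.sum
  refine Finset.sum_congr rfl fun x hx => ?_
  rw [Finsupp.mem_support_iff, Finsupp.sup_apply, pdiv_apply, Finsupp.zero_apply] at hx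
  rw [Finsupp.sup_apply, pdiv_apply, Finsupp.zero_apply]
  have : 0 ≤ x.ord y := by
    by_contra hneg
    push Not at hneg
    exact hx (sup_eq_right.mpr hneg.le)
  rw [sup_eq_left.mpr this]

/-- `ℓ(r (y)_∞ + C) ≥ [F : k(y)] (r + 1)` for a suitable `C` and all `r`. -/
lemma exists_large_LL {y : F} (hy : Transcendental k y) : ∃ C : Div k F, 0 ≤ C ∧ ∀ r : ℕ,
    (Module.finrank k⟮y⟯ F * (r + 1) : ℤ) ≤
      Module.finrank k (LL (r • (pdiv (k := k) y⁻¹ ⊔ 0) + C)) := by
  classical
  have hfin := finiteDimensional_of_transcendental hy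
  have hy0 : y ≠ 0 := by
    rintro rfl
    exact hy isAlgebraic_zero
  set n := Module.finrank k⟮y⟯ F with hn
  let u : Module.Basis (Fin n) k⟮y⟯ F := Module.finBasis k⟮y⟯ F
  let C : Div k F := ∑ i, (pdiv (k := k) (u i)⁻¹ ⊔ 0)
  have hC0 : 0 ≤ C := Finset.sum_nonneg fun i _ => le_sup_right
  refine ⟨C, hC0, fun r => ?_⟩
  -- the functions `y ^ j * u i`
  have hind1 : LinearIndependent k (fun j : Fin (r + 1) =>
      (⟨y, mem_adjoin_simple_self k y⟩ : k⟮y⟯) ^ (j : ℕ)) := by
    rw [Fintype.linearIndependent_iff]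
    intro g hg
    have h1 : aeval y (∑ j : Fin (r + 1), Polynomial.C (g j) * X ^ (j : ℕ) : k[X]) = 0 := by
      have h2 := congrArg (algebraMap k⟮y⟯ F) hg
      rw [map_sum, map_zero] at h2
      rw [map_sum, ← h2]
      refine Finset.sum_congr rfl fun j _ => ?_
      rw [map_mul, aeval_C, map_pow, aeval_X, Algebra.smul_def, map_mul, map_pow,
        ← IsScalarTower.algebraMap_apply]
      rfl
    have h3 : (∑ j : Fin (r + 1), Polynomial.C (g j) * X ^ (j : ℕ) : k[X]) = 0 := by
      by_contra hne
      exact hy ⟨_, hne, h1⟩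
    intro j
    have h4 := congrArg (fun p => p.coeff (j : ℕ)) h3
    simp only [finsetSum_coeff, coeff_C_mul, coeff_X_pow, coeff_zero] at h4
    rw [Finset.sum_eq_single j] at h4
    · simpa using h4
    · intro i _ hi
      rw [if_neg, mul_zero]
      intro h
      exact hi (Fin.ext h.symm)
    · intro h
      exact absurd (Finset.mem_univ _) h
  have hind2 := linearIndependent_smul hind1 u.linearIndependent
  have hmem : ∀ p : Fin (r + 1) × Fin n,
      (⟨y, mem_adjoin_simple_self k y⟩ : k⟮y⟯) ^ (p.1 : ℕ) • u p.2 ∈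
        LL (r • (pdiv (k := k) y⁻¹ ⊔ 0) + C) := by
    intro p
    rw [Algebra.smul_def, map_pow]
    change y ^ (p.1 : ℕ) * u p.2 ∈ _
    have hu0 : u p.2 ≠ 0 := u.ne_zero p.2
    rw [mem_LL_iff (mul_ne_zero (pow_ne_zero _ hy0) hu0), pdiv_mul (pow_ne_zero _ hy0) hu0,
      pdiv_pow hy0]
    intro x
    simp only [Finsupp.add_apply, Finsupp.smul_apply, Finsupp.sup_apply, pdiv_apply,
      Finsupp.zero_apply, x.ord_inv]
    have h1 : (-x.ord (u p.2) ⊔ 0) ≤ C x := by
      have h2 : (pdiv (k := k) (u p.2)⁻¹ ⊔ 0) ≤ C :=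
        Finset.single_le_sum (f := fun i => (pdiv (k := k) (u i)⁻¹ ⊔ 0))
          (fun i _ => le_sup_right) (Finset.mem_univ p.2)
      have := h2 x
      rwa [Finsupp.sup_apply, pdiv_apply, x.ord_inv, Finsupp.zero_apply] at this
    have h3 : -x.ord (u p.2) ≤ C x := le_sup_left.trans h1
    have h4 : (p.1 : ℕ) • (-x.ord y) ≤ r • (-x.ord y ⊔ 0) := by
      simp only [nsmul_eq_mul]
      have h5 : ((p.1 : ℕ) : ℤ) ≤ r := by exact_mod_cast Nat.lt_succ_iff.mp p.1.2
      rcases le_total (-x.ord y) 0 with h | h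
      · rw [sup_eq_right.mpr h, mul_zero]
        exact mul_nonpos_of_nonneg_of_nonpos (by positivity) h
      · rw [sup_eq_left.mpr h]
        exact mul_le_mul_of_nonneg_right h5 h
    simp only [nsmul_eq_mul] at h4 ⊢
    linarith
  have hind3 : LinearIndependent k (fun p : Fin (r + 1) × Fin n =>
      (⟨_, hmem p⟩ : LL (r • (pdiv (k := k) y⁻¹ ⊔ 0) + C))) :=
    LinearIndependent.of_comp (Submodule.subtype _) hind2
  have h5 := hind3.fintype_card_le_finrank
  rw [Fintype.card_prod, Fintype.card_fin, Fintype.card_fin] at h5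
  have h6 : ((r + 1) * n : ℤ) ≤ Module.finrank k (LL (r • (pdiv (k := k) y⁻¹ ⊔ 0) + C)) := by
    exact_mod_cast h5
  linarith

lemma le_deg_pdiv_sup {y : F} (hy : Transcendental k y) :
    (Module.finrank k⟮y⟯ F : ℤ) ≤ Div.deg (pdiv (k := k) y⁻¹ ⊔ 0) := by
  obtain ⟨C, hC0, hC⟩ := exists_large_LL hy
  by_contra hcon
  push Not at hcon
  have hCd := Div.deg_nonneg hC0
  have h1 := hC (C.deg.toNat + 1)
  have h2 : (0 : Div k F) ≤ (C.deg.toNat + 1) • (pdiv (k := k) y⁻¹ ⊔ 0) + C :=
    add_nonneg (nsmul_nonneg le_sup_right _) hC0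
  have h3 := finrank_LL_le_of_nonneg h2
  rw [Div.deg_add, Div.deg_nsmul] at h3
  push_cast at h1 h3
  rw [Int.toNat_of_nonneg hCd] at h1 h3
  have h4 : 0 ≤ (Div.deg (pdiv (k := k) y⁻¹ ⊔ 0)) := Div.deg_nonneg le_sup_right
  nlinarith

/-- Product formula. -/
theorem deg_pdiv (a : F) : Div.deg (pdiv (k := k) a) = 0 := by
  by_cases ha : a ∈ Set.range (algebraMap k F)
  · obtain ⟨c, rfl⟩ := ha
    rw [pdiv_const, Div.deg_zero]
  · have ht := transcendental_of_notMem_range ha
    have ht' : Transcendental k a⁻¹ := by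
      intro h
      exact ht (by simpa using h.inv)
    have h1 := deg_pdiv_sup_le ht
    have h2 := deg_pdiv_sup_le ht'
    have h3 := le_deg_pdiv_sup ht
    have h4 := le_deg_pdiv_sup ht'
    rw [inv_inv] at h4
    rw [finrank_adjoin_inv] at h2 h4
    have h5 : pdiv (k := k) a = (pdiv (k := k) a ⊔ 0) - (pdiv (k := k) a⁻¹ ⊔ 0) := by
      rw [pdiv_inv]
      ext x
      simp only [Finsupp.sub_apply, Finsupp.sup_apply, Finsupp.zero_apply, Finsupp.neg_apply,
        pdiv_apply]
      rcases le_total (x.ord a) 0 with h | h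
      · rw [sup_eq_right.mpr h, sup_eq_left.mpr (by linarith)]; ring
      · rw [sup_eq_left.mpr h, sup_eq_right.mpr (by linarith)]; ring
    rw [h5, Div.deg_sub]
    linarith

end Pool.Agent.WanRH
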