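import Pool.Agent.WanRH.FF.Fin

/-!
# Places of function fields are discrete valuations with finite residue fields
-/

namespace Pool.Agent.WanRH

open IntermediateField Polynomial

universe u v

variable {k : Type u} {F : Type v} [Field k] [Field F] [Algebra k F]

namespace Place

/-- The valuation of a place (multiplicative notation). -/
noncomputable abbrev val (x : Place k F) : Valuation F x.ring.ValueGroup := x.ring.valuation

lemma val_le_one_iff (x : Place k F) {a : F} : x.val a ≤ 1 ↔ a ∈ x.ring :=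
  x.ring.valuation_le_one_iff a

lemma val_const (x : Place k F) {c : k} (hc : c ≠ 0) : x.val (algebraMap k F c) = 1 := by
  have h1 : x.val (algebraMap k F c) ≤ 1 := x.val_le_one_iff.mpr (x.const_mem c)
  have h2 : x.val (algebraMap k F c⁻¹) ≤ 1 := x.val_le_one_iff.mpr (x.const_mem c⁻¹)
  have h3 : x.val (algebraMap k F c) * x.val (algebraMap k F c⁻¹) = 1 := by
    rw [← map_mul, ← map_mul, mul_inv_cancel₀ hc, map_one, map_one]
  refine le_antisymm h1 ?_
  rw [← h3]
  exact mul_le_of_le_one_right' h2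

lemma val_pos (x : Place k F) {a : F} (ha : a ≠ 0) : 0 < x.val a :=
  zero_lt_iff.mpr ((Valuation.ne_zero_iff _).mpr ha)

lemma exists_val_lt_one (x : Place k F) : ∃ y : F, y ≠ 0 ∧ x.val y < 1 := by
  obtain ⟨a, ha⟩ : ∃ a, a ∉ x.ring := by
    by_contra hcon
    push Not at hcon
    exact x.ne_top (ValuationSubring.ext _ _ fun a =>
      ⟨fun _ => ValuationSubring.mem_top a, fun _ => hcon a⟩)
  have ha0 : a ≠ 0 := by
    rintro rfl
    exact ha x.ring.zero_mem
  have h1 : 1 < x.val a := by
    rw [← not_le, x.val_le_one_iff]; exact ha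
  refine ⟨a⁻¹, inv_ne_zero ha0, ?_⟩
  rw [map_inv₀]
  exact inv_lt_one_of_one_lt₀ h1

lemma val_smul (x : Place k F) (c : k) (a : F) (hc : c ≠ 0) :
    x.val (algebraMap k F c * a) = x.val a := by
  rw [map_mul, x.val_const hc, one_mul]

lemma val_const_mul_le (x : Place k F) (c : k) (a : F) :
    x.val (algebraMap k F c * a) ≤ x.val a := by
  by_cases hc : c = 0
  · rw [hc, map_zero, zero_mul, map_zero]; exact zero_le
  · rw [x.val_smul c a hc]

section FF

variable [IsFunctionField k F]

lemma transcendental_of_val_lt_one (x : Place k F) {y : F} (hy : y ≠ 0) (h : x.val y < 1) :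
    Transcendental k y := by
  apply transcendental_of_notMem_range
  rintro ⟨c, rfl⟩
  have hc : c ≠ 0 := by
    rintro rfl
    exact hy (map_zero _)
  rw [x.val_const hc] at h
  exact lt_irrefl _ h

/-- The number of distinct values in `(v(y), 1]` is at most `[F : k(y)]`. -/
lemma card_values_le (x : Place k F) {y : F} (hy : y ≠ 0) (h : x.val y < 1) {m : ℕ}
    (a : Fin m → F) (ha : Function.Injective fun i => x.val (a i)) (ha1 : ∀ i, x.val (a i) ≤ 1)
    (hay : ∀ i, x.val y < x.val (a i)) : m ≤ Module.finrank k⟮y⟯ F := by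
  classical
  have key := card_le_finrank_adjoin (k := k) (ι := Fin m) x.ring.toSubring x.const_mem
    (x.transcendental_of_val_lt_one hy h) (x.val_le_one_iff.mp h.le) a
    (fun i => x.val_le_one_iff.mp (ha1 i)) ?_
  · simpa using key
  · rintro l ⟨r, hr, hsum⟩
    by_contra hl
    obtain ⟨i₁, hi₁⟩ := Function.ne_iff.mp hl
    let S : Finset (Fin m) := Finset.univ.filter fun i => l i ≠ 0
    have hS : S.Nonempty := ⟨i₁, by simpa [S] using hi₁⟩
    obtain ⟨i₀, hi₀, hmax⟩ := S.exists_max_image (fun i => x.val (a i)) hS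
    have hl0 : l i₀ ≠ 0 := by simpa [S] using hi₀
    have hval : x.val (algebraMap k F (l i₀) * a i₀) = x.val (a i₀) := x.val_smul _ _ hl0
    have hlt : x.val (algebraMap k F (l i₀) * a i₀) < x.val (a i₀) := by
      have heq : algebraMap k F (l i₀) * a i₀ =
          y * r - ∑ i ∈ Finset.univ.erase i₀, algebraMap k F (l i) * a i := by
        rw [← hsum, ← Finset.add_sum_erase Finset.univ _ (Finset.mem_univ i₀)]
        ring
      rw [heq]
      refine Valuation.map_sub_lt _ ?_ ?_
      · rw [map_mul]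
        refine lt_of_le_of_lt (mul_le_of_le_one_right' ?_) (hay i₀)
        exact x.val_le_one_iff.mpr hr
      · refine Valuation.map_sum_lt' _ (lt_of_le_of_lt zero_le (hay i₀)) ?_
        intro i hi
        by_cases hli : l i = 0
        · rw [hli, map_zero, zero_mul, map_zero]
          exact lt_of_le_of_lt zero_le (hay i₀)
        · rw [x.val_smul _ _ hli]
          refine lt_of_le_of_ne (hmax i (by simpa [S] using hli)) ?_
          intro he
          exact (Finset.mem_erase.mp hi).1 (ha he)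
    exact absurd hval hlt.ne

lemma finite_values (x : Place k F) {y : F} (hy : y ≠ 0) (h : x.val y < 1) :
    {γ : x.ring.ValueGroup | x.val y < γ ∧ γ ≤ 1}.Finite := by
  by_contra hinf
  have hinf' : Set.Infinite {γ : x.ring.ValueGroup | x.val y < γ ∧ γ ≤ 1} := hinf
  obtain ⟨s, hs, hcard⟩ := hinf'.exists_subset_card_eq (Module.finrank k⟮y⟯ F + 1)
  have hsur := x.ring.valuation_surjective
  choose f hf using hsur
  let e : Fin (Module.finrank k⟮y⟯ F + 1) ≃ s := (Fintype.equivFinOfCardEq (by simpa using hcard)).symm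
  have := x.card_values_le hy h (fun i => f (e i)) (fun i j hij => by
      simp only [hf] at hij
      exact e.injective (Subtype.ext hij))
    (fun i => by rw [hf]; exact (hs (e i).2).2) (fun i => by rw [hf]; exact (hs (e i).2).1)
  omega

lemma exists_max_val (x : Place k F) : ∃ π : F, π ≠ 0 ∧ x.val π < 1 ∧
    ∀ a : F, x.val a < 1 → x.val a ≤ x.val π := by
  classical
  obtain ⟨y, hy, hy1⟩ := x.exists_val_lt_one
  have hfin := (x.finite_values hy hy1)
  let S : Finset x.ring.ValueGroup := insert (x.val y) (hfin.toFinset.filter (· < 1))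
  obtain ⟨γ, hγ, hmax⟩ := S.exists_max_image id ⟨_, Finset.mem_insert_self _ _⟩
  obtain ⟨π, hπ⟩ := x.ring.valuation_surjective γ
  have h1 : x.val y ≤ γ := hmax _ (Finset.mem_insert_self _ _)
  refine ⟨π, ?_, ?_, ?_⟩
  · rintro rfl
    rw [map_zero] at hπ
    rw [← hπ] at h1
    exact absurd (x.val_pos hy) (not_lt.mpr h1)
  · rw [val, hπ]
    rcases Finset.mem_insert.mp hγ with h | h
    · rw [h]; exact hy1
    · exact (Finset.mem_filter.mp h).2
  · intro a ha
    rw [val, hπ]
    by_cases hay : x.val y < x.val a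
    · apply hmax
      refine Finset.mem_insert_of_mem (Finset.mem_filter.mpr ⟨?_, ha⟩)
      rw [Set.Finite.mem_toFinset]
      exact ⟨hay, ha.le⟩
    · exact (not_lt.mp hay).trans h1

lemma exists_uniformizer (x : Place k F) : ∃ π : F, π ≠ 0 ∧ x.val π < 1 ∧
    ∀ a : F, a ≠ 0 → ∃ n : ℤ, x.val a = x.val π ^ n := by
  classical
  obtain ⟨π, hπ0, hπ1, hmax⟩ := x.exists_max_val
  have hpos := x.val_pos hπ0
  have key : ∀ a : F, a ≠ 0 → x.val a < 1 → ∃ n : ℕ, x.val a = x.val π ^ n := by
    intro a ha ha1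
    have hex : ∃ j : ℕ, x.val π ^ j ≤ x.val a := by
      by_contra hcon
      push Not at hcon
      have hinf : Set.Infinite (Set.range fun j : ℕ => x.val π ^ j) := by
        apply Set.infinite_range_of_injective
        exact (pow_right_strictAnti₀ hpos hπ1).injective
      apply hinf
      refine (x.finite_values ha ha1).subset ?_
      rintro _ ⟨j, rfl⟩
      exact ⟨hcon j, pow_le_one' hπ1.le j⟩
    have hj := Nat.find_spec hex
    have hj' := fun m => Nat.find_min hex (m := m)
    set j := Nat.find hex with hjdef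
    clear_value j
    rcases j with _ | j
    · rw [pow_zero] at hj
      exact absurd ha1 (not_lt.mpr hj)
    · refine ⟨j + 1, le_antisymm ?_ hj⟩
      have h2 : x.val a < x.val π ^ j := not_le.mp (hj' j (Nat.lt_succ_self j))
      have hπj : x.val π ^ j ≠ 0 := pow_ne_zero _ hpos.ne'
      have h3 : x.val (a / π ^ j) < 1 := by
        rw [map_div₀, map_pow, div_lt_one₀ (zero_lt_iff.mpr hπj)]
        exact h2
      have h4 := hmax _ h3
      rw [map_div₀, map_pow, div_le_iff₀ (zero_lt_iff.mpr hπj)] at h4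
      rw [pow_succ']
      exact h4
  refine ⟨π, hπ0, hπ1, fun a ha => ?_⟩
  rcases lt_trichotomy (x.val a) 1 with h | h | h
  · obtain ⟨n, hn⟩ := key a ha h
    exact ⟨n, by rw [hn, zpow_natCast]⟩
  · exact ⟨0, by rw [h, zpow_zero]⟩
  · obtain ⟨n, hn⟩ := key a⁻¹ (inv_ne_zero ha) (by
      rw [map_inv₀]; exact inv_lt_one_of_one_lt₀ h)
    refine ⟨-n, ?_⟩
    rw [zpow_neg, zpow_natCast, ← hn, map_inv₀, inv_inv]

/-- A uniformizer. -/
noncomputable def unif (x : Place k F) : F := x.exists_uniformizer.choose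

lemma unif_ne_zero (x : Place k F) : x.unif ≠ 0 := x.exists_uniformizer.choose_spec.1

lemma val_unif_lt_one (x : Place k F) : x.val x.unif < 1 := x.exists_uniformizer.choose_spec.2.1

lemma val_unif_pos (x : Place k F) : 0 < x.val x.unif := x.val_pos x.unif_ne_zero

lemma exists_val_eq (x : Place k F) (a : F) (ha : a ≠ 0) : ∃ n : ℤ, x.val a = x.val x.unif ^ n :=
  x.exists_uniformizer.choose_spec.2.2 a ha

open Classical in
/-- Normalised discrete valuation of a place (with the junk value `ord 0 = 0`). -/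
noncomputable def ord (x : Place k F) (a : F) : ℤ :=
  if h : a = 0 then 0 else (x.exists_val_eq a h).choose

variable (x : Place k F)

@[simp] lemma ord_zero : x.ord 0 = 0 := by simp [ord]

lemma val_eq {a : F} (ha : a ≠ 0) : x.val a = x.val x.unif ^ x.ord a := by
  rw [ord, dif_neg ha]
  exact (x.exists_val_eq a ha).choose_spec

lemma zpow_strictAnti : StrictAnti fun n : ℤ => x.val x.unif ^ n :=
  zpow_right_strictAnti₀ x.val_unif_pos x.val_unif_lt_one

lemma zpow_inj {m n : ℤ} : x.val x.unif ^ m = x.val x.unif ^ n ↔ m = n :=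
  x.zpow_strictAnti.injective.eq_iff

lemma zpow_le_iff {m n : ℤ} : x.val x.unif ^ m ≤ x.val x.unif ^ n ↔ n ≤ m :=
  x.zpow_strictAnti.le_iff_ge

lemma zpow_lt_iff {m n : ℤ} : x.val x.unif ^ m < x.val x.unif ^ n ↔ n < m :=
  x.zpow_strictAnti.lt_iff_gt

lemma ord_eq_iff {a : F} (ha : a ≠ 0) {n : ℤ} : x.ord a = n ↔ x.val a = x.val x.unif ^ n := by
  rw [x.val_eq ha, x.zpow_inj]

lemma le_ord_iff {a : F} (ha : a ≠ 0) {n : ℤ} : n ≤ x.ord a ↔ x.val a ≤ x.val x.unif ^ n := by
  rw [x.val_eq ha, x.zpow_le_iff]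

lemma ord_mul {a b : F} (ha : a ≠ 0) (hb : b ≠ 0) : x.ord (a * b) = x.ord a + x.ord b := by
  rw [x.ord_eq_iff (mul_ne_zero ha hb), map_mul, x.val_eq ha, x.val_eq hb,
    zpow_add₀ x.val_unif_pos.ne']

@[simp] lemma ord_one : x.ord 1 = 0 := by
  rw [x.ord_eq_iff one_ne_zero, map_one, zpow_zero]

@[simp] lemma ord_neg (a : F) : x.ord (-a) = x.ord a := by
  by_cases ha : a = 0
  · simp [ha]
  · rw [x.ord_eq_iff (neg_ne_zero.mpr ha), Valuation.map_neg, x.val_eq ha]

lemma ord_inv (a : F) : x.ord a⁻¹ = - x.ord a := by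
  by_cases ha : a = 0
  · simp [ha]
  · rw [x.ord_eq_iff (inv_ne_zero ha), map_inv₀, x.val_eq ha, zpow_neg]

lemma ord_div {a b : F} (ha : a ≠ 0) (hb : b ≠ 0) : x.ord (a / b) = x.ord a - x.ord b := by
  rw [div_eq_mul_inv, x.ord_mul ha (inv_ne_zero hb), x.ord_inv]; ring

lemma ord_pow {a : F} (ha : a ≠ 0) (n : ℕ) : x.ord (a ^ n) = n * x.ord a := by
  induction n with
  | zero => simp
  | succ n ih => rw [pow_succ, x.ord_mul (pow_ne_zero _ ha) ha, ih]; push_cast; ring

lemma ord_zpow {a : F} (ha : a ≠ 0) (n : ℤ) : x.ord (a ^ n) = n * x.ord a := by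
  rw [x.ord_eq_iff (zpow_ne_zero _ ha), map_zpow₀, x.val_eq ha, ← zpow_mul, mul_comm]

lemma ord_const (c : k) : x.ord (algebraMap k F c) = 0 := by
  by_cases hc : c = 0
  · simp [hc]
  · rw [x.ord_eq_iff (by simpa using hc), x.val_const hc, zpow_zero]

@[simp] lemma ord_unif : x.ord x.unif = 1 := by
  rw [x.ord_eq_iff x.unif_ne_zero, zpow_one]

lemma mem_ring_iff {a : F} : a ∈ x.ring ↔ a = 0 ∨ 0 ≤ x.ord a := by
  by_cases ha : a = 0
  · simp [ha, x.ring.zero_mem]
  · rw [← x.val_le_one_iff, x.le_ord_iff ha, zpow_zero]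
    simp [ha]

lemma exists_ord_eq_one : ∃ a : F, a ≠ 0 ∧ x.ord a = 1 := ⟨x.unif, x.unif_ne_zero, x.ord_unif⟩

lemma mem_fil_aux {n : ℤ} {a : F} : (a = 0 ∨ n ≤ x.ord a) ↔ x.val a ≤ x.val x.unif ^ n := by
  by_cases ha : a = 0
  · simp [ha]
  · rw [x.le_ord_iff ha]; simp [ha]

/-- `fil x n = {a | v_x(a) ≥ n}`, a `k`-subspace of `F`. -/
noncomputable def fil (n : ℤ) : Submodule k F where
  carrier := {a | a = 0 ∨ n ≤ x.ord a}
  add_mem' := by
    intro a b ha hb
    simp only [Set.mem_ofPred_eq] at ha hb ⊢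
    rw [x.mem_fil_aux] at ha hb ⊢
    exact Valuation.map_add_le _ ha hb
  zero_mem' := Or.inl rfl
  smul_mem' := by
    intro c a ha
    simp only [Set.mem_ofPred_eq] at ha ⊢
    rw [x.mem_fil_aux] at ha ⊢
    rw [Algebra.smul_def]
    exact (x.val_const_mul_le c a).trans ha

lemma mem_fil {n : ℤ} {a : F} : a ∈ x.fil n ↔ a = 0 ∨ n ≤ x.ord a := Iff.rfl

lemma mem_fil_iff_val {n : ℤ} {a : F} : a ∈ x.fil n ↔ x.val a ≤ x.val x.unif ^ n := x.mem_fil_aux

lemma mem_fil_of_ne_zero {n : ℤ} {a : F} (ha : a ≠ 0) : a ∈ x.fil n ↔ n ≤ x.ord a := by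
  rw [mem_fil]; simp [ha]

lemma mul_mem_fil {m n : ℤ} {a b : F} (ha : a ∈ x.fil m) (hb : b ∈ x.fil n) :
    a * b ∈ x.fil (m + n) := by
  rw [mem_fil_iff_val] at *
  rw [map_mul, zpow_add₀ x.val_unif_pos.ne']
  exact mul_le_mul' ha hb

lemma fil_anti {m n : ℤ} (h : m ≤ n) : x.fil n ≤ x.fil m := by
  intro a ha
  rw [mem_fil] at *
  exact ha.imp_right h.trans

lemma mem_ring_iff_fil {a : F} : a ∈ x.ring ↔ a ∈ x.fil 0 := x.mem_ring_iff

/-- The residue class is zero iff the element has positive valuation. -/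
lemma residue_eq_zero_iff {a : x.ring} :
    IsLocalRing.residue x.ring a = 0 ↔ (a : F) ∈ x.fil 1 := by
  rw [IsLocalRing.residue_eq_zero_iff, ValuationSubring.valuation_lt_one_iff]
  change x.val (a : F) < 1 ↔ _
  by_cases ha : (a : F) = 0
  · rw [ha]; simp
  · rw [x.mem_fil_of_ne_zero ha, x.val_eq ha]
    have := x.zpow_lt_iff (m := x.ord (a : F)) (n := 0)
    rw [zpow_zero] at this
    rw [this]
    omega

instance moduleFinite_residueField : Module.Finite k x.ResidueField := by
  obtain ⟨y, hy, hy1⟩ := x.exists_val_lt_one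
  have hrank : Module.rank k x.ResidueField ≤ (Module.finrank k⟮y⟯ F : ℕ) := by
    refine rank_le fun s hs => ?_
    have hsur := IsLocalRing.residue_surjective (R := x.ring)
    choose f hf using hsur
    have key := card_le_finrank_adjoin (k := k) (ι := s) x.ring.toSubring x.const_mem
      (x.transcendental_of_val_lt_one hy hy1) (x.val_le_one_iff.mp hy1.le)
      (fun i => (f i : F)) (fun i => (f i).2) ?_
    · simpa using key
    · rintro l ⟨r, hr, hsum⟩
      rw [Fintype.linearIndependent_iff] at hs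
      ext i
      refine hs l ?_ i
      have h1 : (∑ i : s, algebraMap k x.ring (l i) * f i : x.ring) =
          ⟨y, x.val_le_one_iff.mp hy1.le⟩ * ⟨r, hr⟩ := by
        apply Subtype.ext
        rw [MulMemClass.mk_mul_mk]
        simp only
        rw [← hsum]
        push_cast
        rfl
      have h2 := congrArg (IsLocalRing.residue x.ring) h1
      rw [map_sum, map_mul] at h2
      have h3 : IsLocalRing.residue x.ring ⟨y, x.val_le_one_iff.mp hy1.le⟩ = 0 := by
        rw [IsLocalRing.residue_eq_zero_iff, ValuationSubring.valuation_lt_one_iff]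
        exact hy1
      rw [h3, zero_mul] at h2
      rw [← h2]
      refine Finset.sum_congr rfl fun i _ => ?_
      rw [map_mul, hf, Algebra.smul_def]
      rfl
  have : Module.rank k x.ResidueField < Cardinal.aleph0 :=
    lt_of_le_of_lt hrank (Cardinal.natCast_lt_aleph0)
  exact Module.rank_lt_aleph0_iff.mp this

lemma degree_pos : 0 < x.degree := Module.finrank_pos

lemma eq_of_ring_le {x y : Place k F} (h : x.ring ≤ y.ring) : x = y := by
  apply Place.ext
  refine le_antisymm h fun a ha => ?_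
  by_contra hax
  apply y.ne_top
  refine ValuationSubring.ext _ _ fun b => ⟨fun _ => ValuationSubring.mem_top b, fun _ => ?_⟩
  have ha0 : a ≠ 0 := by
    rintro rfl
    exact hax x.ring.zero_mem
  by_cases hb : b = 0
  · rw [hb]; exact y.ring.zero_mem
  rw [x.mem_ring_iff] at hax
  push Not at hax
  have h1 : b * (a ^ (x.ord b).natAbs)⁻¹ ∈ x.ring := by
    rw [x.mem_ring_iff]
    right
    rw [x.ord_mul hb (inv_ne_zero (pow_ne_zero _ ha0)), x.ord_inv, x.ord_pow ha0]
    have : ((x.ord b).natAbs : ℤ) * x.ord a ≤ -((x.ord b).natAbs : ℤ) := by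
      have := hax.2
      nlinarith [Int.natCast_nonneg (x.ord b).natAbs]
    have h2 : -((x.ord b).natAbs : ℤ) ≤ x.ord b := by omega
    omega
  have h2 := y.ring.mul_mem _ _ (h h1) (pow_mem ha (x.ord b).natAbs)
  rwa [mul_assoc, inv_mul_cancel₀ (pow_ne_zero _ ha0), mul_one] at h2

section Lead

/-- Leading coefficient: `fil n → κ(x)`, with kernel `fil (n+1)`. -/
noncomputable def lead (n : ℤ) : x.fil n →ₗ[k] x.ResidueField where
  toFun a := IsLocalRing.residue x.ring ⟨(a : F) * x.unif ^ (-n), by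
    rw [mem_ring_iff_fil]
    have h1 : x.unif ^ (-n) ∈ x.fil (-n) := by
      rw [x.mem_fil_of_ne_zero (zpow_ne_zero _ x.unif_ne_zero), x.ord_zpow x.unif_ne_zero]
      simp
    have := x.mul_mem_fil a.2 h1
    rwa [add_neg_cancel] at this⟩
  map_add' a b := by
    rw [← map_add]
    congr 1
    apply Subtype.ext
    show ((a : F) + b) * _ = (a : F) * _ + (b : F) * _
    ring
  map_smul' c a := by
    rw [RingHom.id_apply, Algebra.smul_def]
    change _ = IsLocalRing.residue x.ring (algebraMap k x.ring c) * _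
    rw [← map_mul]
    congr 1
    apply Subtype.ext
    show (c • (a : F)) * _ = algebraMap k F c * ((a : F) * _)
    rw [Algebra.smul_def, mul_assoc]

lemma lead_eq_zero_iff {n : ℤ} (a : x.fil n) : x.lead n a = 0 ↔ (a : F) ∈ x.fil (n + 1) := by
  change IsLocalRing.residue x.ring _ = 0 ↔ _
  rw [x.residue_eq_zero_iff]
  simp only
  by_cases ha : (a : F) = 0
  · rw [ha, zero_mul]; simp
  · rw [x.mem_fil_of_ne_zero ha, x.mem_fil_of_ne_zero
      (mul_ne_zero ha (zpow_ne_zero _ x.unif_ne_zero)),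
      x.ord_mul ha (zpow_ne_zero _ x.unif_ne_zero), x.ord_zpow x.unif_ne_zero, ord_unif]
    omega

lemma lead_surjective (n : ℤ) : Function.Surjective (x.lead n) := by
  intro c
  obtain ⟨r, hr⟩ := IsLocalRing.residue_surjective (R := x.ring) c
  refine ⟨⟨(r : F) * x.unif ^ n, ?_⟩, ?_⟩
  · have h1 : x.unif ^ n ∈ x.fil n := by
      rw [x.mem_fil_of_ne_zero (zpow_ne_zero _ x.unif_ne_zero), x.ord_zpow x.unif_ne_zero]
      simp
    have h2 : (r : F) ∈ x.fil 0 := x.mem_ring_iff_fil.mp r.2
    have := x.mul_mem_fil h2 h1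
    rwa [zero_add] at this
  · rw [← hr]
    change IsLocalRing.residue x.ring _ = _
    congr 1
    apply Subtype.ext
    show (r : F) * x.unif ^ n * x.unif ^ (-n) = r
    rw [mul_assoc, ← zpow_add₀ x.unif_ne_zero, add_neg_cancel, zpow_zero, mul_one]

end Lead

section FiniteConst

variable [Finite k]

instance finite_residueField : Finite x.ResidueField := Module.finite_of_finite k

lemma card_residueField : Nat.card x.ResidueField = Nat.card k ^ x.degree :=
  Module.natCard_eq_pow_finrank

end FiniteConst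

end FF

end Place

end Pool.Agent.WanRH
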