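import Pool.Agent.WanRH.FF.Approx

/-!
# Existence of poles, finiteness of zeros and poles, finiteness of places of bounded degree
-/

namespace Pool.Agent.WanRH

open IntermediateField Polynomial

universe u v

variable {k : Type u} {F : Type v} [Field k] [Field F] [Algebra k F] [IsFunctionField k F]

/-- Every nonconstant element has a pole. -/
lemma exists_notMem_ring {a : F} (ha : a ∉ Set.range (algebraMap k F)) :
    ∃ x : Place k F, a ∉ x.ring := by
  have hcl : IsIntegrallyClosedIn (algebraMap k F).range F := by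
    rw [Subring.isIntegrallyClosedIn_iff]
    intro b hb
    have h1 : IsIntegral k b := by
      let : Algebra k (algebraMap k F).range := (algebraMap k F).rangeRestrict.toAlgebra
      have : IsScalarTower k (algebraMap k F).range F := IsScalarTower.of_algebraMap_eq fun _ => rfl
      have : Algebra.IsIntegral k (algebraMap k F).range :=
        Algebra.isIntegral_of_surjective (algebraMap k F).rangeRestrict_surjective
      exact isIntegral_trans b hb
    exact IsFunctionField.const b h1.isAlgebraic
  obtain ⟨V, hV1, hV2⟩ := Subring.exists_le_valuationSubring_of_isIntegrallyClosedIn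
    (R := (algebraMap k F).range) (x := a) (by simpa using ha)
  refine ⟨⟨V, fun c => hV1 ⟨c, rfl⟩, ?_⟩, hV2⟩
  rintro rfl
  exact hV2 (ValuationSubring.mem_top a)

/-- Every element without poles is constant. -/
lemma mem_range_of_forall_mem_ring (a : F) (h : ∀ x : Place k F, a ∈ x.ring) :
    a ∈ Set.range (algebraMap k F) := by
  by_contra hcon
  obtain ⟨x, hx⟩ := exists_notMem_ring hcon
  exact hx (h x)

lemma finite_zeros {a : F} (ha : Transcendental k a) : {x : Place k F | 0 < x.ord a}.Finite := by
  by_contra hinf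
  have hinf' : Set.Infinite {x : Place k F | 0 < x.ord a} := hinf
  obtain ⟨s, hs, hcard⟩ := hinf'.exists_subset_card_eq (Module.finrank k⟮a⟯ F + 1)
  have h1 := sum_ord_mul_degree_le ha s (fun x hx => (hs hx).le)
  have h2 : ∑ x ∈ s, (1 : ℤ) ≤ ∑ x ∈ s, x.ord a * (x.degree : ℤ) := by
    refine Finset.sum_le_sum fun x hx => ?_
    have h3 : 1 ≤ x.ord a := hs hx
    have h4 : (1 : ℤ) ≤ x.degree := by exact_mod_cast x.degree_pos
    nlinarith
  rw [Finset.sum_const, hcard] at h2
  simp only [nsmul_eq_mul, mul_one] at h2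
  push_cast at h2
  omega

lemma finite_ord_ne_zero (a : F) : {x : Place k F | x.ord a ≠ 0}.Finite := by
  by_cases ha : a ∈ Set.range (algebraMap k F)
  · obtain ⟨c, rfl⟩ := ha
    simp [Place.ord_const]
  · have ht := transcendental_of_notMem_range ha
    have ht' : Transcendental k a⁻¹ := by
      intro h
      exact ht (by simpa using h.inv)
    refine ((finite_zeros ht).union (finite_zeros ht')).subset ?_
    intro x hx
    simp only [Set.mem_ofPred_eq, Set.mem_union, Place.ord_inv] at hx ⊢
    omega

section FiniteConst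

variable [Finite k]

lemma Place.pow_sub_mem_fil (x : Place k F) {t : F} (ht : t ∈ x.ring) {M : ℕ}
    (hM : x.degree ∣ M) : t ^ (Nat.card k ^ M) - t ∈ x.fil 1 := by
  obtain ⟨e, rfl⟩ := hM
  have hmem : (⟨t, ht⟩ : x.ring) ^ (Nat.card k ^ (x.degree * e)) - ⟨t, ht⟩ = 
      ⟨t ^ (Nat.card k ^ (x.degree * e)) - t,
        x.ring.toSubring.sub_mem (pow_mem ht _) ht⟩ := by
    apply Subtype.ext
    rfl
  have h1 : IsLocalRing.residue x.ring ((⟨t, ht⟩ : x.ring) ^ (Nat.card k ^ (x.degree * e)) -
      ⟨t, ht⟩) = 0 := by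
    have : Fintype x.ResidueField := Fintype.ofFinite _
    rw [map_sub, map_pow, pow_mul, ← x.card_residueField, Nat.card_eq_fintype_card,
      FiniteField.pow_card_pow, sub_self]
  rw [hmem, x.residue_eq_zero_iff] at h1
  exact h1

lemma finite_degree_le (m : ℕ) : {x : Place k F | x.degree ≤ m}.Finite := by
  obtain ⟨t, ht, -⟩ := IsFunctionField.exists_transcendental (k := k) (F := F)
  refine ((finite_ord_ne_zero (k := k) (t ^ (Nat.card k ^ m.factorial) - t)).union
    (finite_ord_ne_zero (k := k) t)).subset ?_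
  intro x hx
  simp only [Set.mem_ofPred_eq, Set.mem_union] at hx ⊢
  have ht0 : t ≠ 0 := by
    rintro rfl
    exact ht isAlgebraic_zero
  by_cases hpole : x.ord t = 0
  · left
    have hmem : t ∈ x.ring := x.mem_ring_iff.mpr (Or.inr hpole.ge)
    have h1 := x.pow_sub_mem_fil hmem (M := m.factorial) (Nat.dvd_factorial x.degree_pos hx)
    have hne : t ^ (Nat.card k ^ m.factorial) - t ≠ 0 := by
      intro h0
      apply ht
      refine ⟨X ^ (Nat.card k ^ m.factorial) - X, ?_, by simpa using h0⟩
      exact FiniteField.X_pow_card_sub_X_ne_zero k (Nat.one_lt_pow m.factorial_ne_zero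
        Finite.one_lt_card)
    rw [x.mem_fil_of_ne_zero hne] at h1
    omega
  · right; exact hpole

lemma exists_place_notMem (P : Finset (Place k F)) : ∃ x : Place k F, x ∉ P := by
  by_contra hcon
  push Not at hcon
  obtain ⟨t, ht, -⟩ := IsFunctionField.exists_transcendental (k := k) (F := F)
  have ht0 : t ≠ 0 := by
    rintro rfl
    exact ht isAlgebraic_zero
  set M := ∏ x ∈ P, x.degree with hM
  have hMdvd : ∀ x : Place k F, x.degree ∣ M := fun x => Finset.dvd_prod_of_mem _ (hcon x)
  have hMpos : M ≠ 0 := Finset.prod_ne_zero_iff.mpr fun x _ => x.degree_pos.ne'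
  have hq : 1 < Nat.card k ^ M := Nat.one_lt_pow hMpos Finite.one_lt_card
  set N := Nat.card k ^ M with hN
  -- the element `1 + t^N - t` is nonconstant
  have hnc : ∀ c : k, 1 + t ^ N - t ≠ algebraMap k F c := by
    intro c hc
    apply ht
    refine ⟨X ^ N - X + C (1 - c), ?_, ?_⟩
    · intro h0
      have h1 := congrArg (fun p => p.coeff N) h0
      simp only [coeff_add, coeff_sub, coeff_X_pow, if_true, coeff_X, coeff_C, coeff_zero] at h1
      rw [if_neg (by omega), if_neg (by omega)] at h1
      simp at h1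
    · simp only [map_add, map_sub, map_pow, aeval_X, aeval_C, map_one]
      rw [← hc]; ring
  have hne : 1 + t ^ N - t ≠ 0 := by
    have := hnc 0
    rwa [map_zero] at this
  have hord : ∀ x : Place k F, x.ord (1 + t ^ N - t) ≤ 0 := by
    intro x
    by_cases hx : t ∈ x.ring
    · have h1 := x.pow_sub_mem_fil hx (hMdvd x)
      by_contra hpos
      push Not at hpos
      have h2 : 1 + t ^ N - t ∈ x.fil 1 := (x.mem_fil_of_ne_zero hne).mpr hpos
      have h3 := (x.fil 1).sub_mem h2 h1
      have h4 : 1 + t ^ N - t - (t ^ N - t) = 1 := by ring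
      rw [h4, x.mem_fil_of_ne_zero one_ne_zero, x.ord_one] at h3
      omega
    · rw [x.mem_ring_iff] at hx
      push Not at hx
      have h1 := x.ord_add_of_lt (a := t ^ N) (b := 1) (pow_ne_zero _ ht0) one_ne_zero (by
        rw [x.ord_one, x.ord_pow ht0]
        have : (1 : ℤ) ≤ N := by exact_mod_cast hq.le
        nlinarith [hx.2])
      have h2 := x.ord_add_of_lt (a := t ^ N + 1) (b := -t) h1.1 (neg_ne_zero.mpr ht0) (by
        rw [h1.2, x.ord_neg, x.ord_pow ht0]
        have : (2 : ℤ) ≤ N := by exact_mod_cast hq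
        nlinarith [hx.2])
      have h3 : t ^ N + 1 + -t = 1 + t ^ N - t := by ring
      rw [h3] at h2
      rw [h2.2, h1.2, x.ord_pow ht0]
      have : (0 : ℤ) ≤ N := by positivity
      nlinarith [hx.2]
  obtain ⟨c, hc⟩ := mem_range_of_forall_mem_ring (k := k) (1 + t ^ N - t)⁻¹ (fun x => by
    rw [x.mem_ring_iff]
    right
    rw [x.ord_inv]
    linarith [hord x])
  apply hnc c⁻¹
  rw [map_inv₀, hc, inv_inv]

end FiniteConst

end Pool.Agent.WanRH
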