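import Pool.Agent.WanRH.FF.Divisors

/-!
# Riemann's theorem for divisors of large degree
-/

namespace Pool.Agent.WanRH

open IntermediateField Polynomial

universe u v

variable {k : Type u} {F : Type v} [Field k] [Field F] [Algebra k F] [IsFunctionField k F]

/-- Multiplication by `f` is an isomorphism `L(D + (f)) ≃ L(D)`. -/
noncomputable def mulEquiv (D : Div k F) {f : F} (hf : f ≠ 0) : LL (D + pdiv f) ≃ₗ[k] LL D where
  toFun a := ⟨f * a, by
    by_cases ha : (a : F) = 0
    · rw [ha, mul_zero]; exact Submodule.zero_mem _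
    · have h := (mem_LL_iff ha).mp a.2
      rw [mem_LL_iff (mul_ne_zero hf ha), pdiv_mul hf ha, ← add_assoc]
      exact h⟩
  invFun a := ⟨f⁻¹ * a, by
    by_cases ha : (a : F) = 0
    · rw [ha, mul_zero]; exact Submodule.zero_mem _
    · have h := (mem_LL_iff ha).mp a.2
      rw [mem_LL_iff (mul_ne_zero (inv_ne_zero hf) ha), pdiv_mul (inv_ne_zero hf) ha, pdiv_inv]
      have h2 : D + pdiv (k := k) f + (-pdiv f + pdiv (a : F)) = D + pdiv (a : F) := by abel
      rw [h2]
      exact h⟩
  left_inv a := by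
    apply Subtype.ext
    show f⁻¹ * (f * (a : F)) = a
    rw [← mul_assoc, inv_mul_cancel₀ hf, one_mul]
  right_inv a := by
    apply Subtype.ext
    show f * (f⁻¹ * (a : F)) = a
    rw [← mul_assoc, mul_inv_cancel₀ hf, one_mul]
  map_add' a b := by
    apply Subtype.ext
    show f * ((a : F) + b) = f * (a : F) + f * b
    ring
  map_smul' c a := by
    apply Subtype.ext
    show f * (c • (a : F)) = c • (f * (a : F))
    rw [mul_smul_comm]

lemma idx_add_pdiv (D : Div k F) {f : F} (hf : f ≠ 0) : idx (D + pdiv f) = idx D := by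
  unfold idx
  rw [Div.deg_add, deg_pdiv, add_zero, (mulEquiv D hf).finrank_eq]

lemma exists_ne_zero_mem_LL {D : Div k F} (h : 0 < Module.finrank k (LL D)) :
    ∃ f : F, f ≠ 0 ∧ f ∈ LL D := by
  have : Nontrivial (LL D) := Module.finrank_pos_iff.mp h
  obtain ⟨f, hf⟩ := exists_ne (0 : LL D)
  exact ⟨f, fun h0 => hf (Subtype.ext h0), f.2⟩

variable (k F) in
lemma idx_bounded : ∃ B : ℤ, ∀ D : Div k F, idx D ≤ B := by
  obtain ⟨t, ht, -⟩ := IsFunctionField.exists_transcendental (k := k) (F := F)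
  obtain ⟨C, hC0, hC⟩ := exists_large_LL ht
  have hfin := finiteDimensional_of_transcendental ht
  have hn : 0 < Module.finrank k⟮t⟯ F := Module.finrank_pos
  set n := Module.finrank k⟮t⟯ F with hndef
  set P : Div k F := pdiv (k := k) t⁻¹ ⊔ 0 with hP
  have hPdeg : P.deg ≤ n := by
    have ht' : Transcendental k t⁻¹ := by
      intro h
      exact ht (by simpa using h.inv)
    have := deg_pdiv_sup_le ht'
    rwa [finrank_adjoin_inv] at this
  refine ⟨C.deg - n, fun D => ?_⟩
  set E : Div k F := D ⊔ 0 with hE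
  have hE0 : 0 ≤ E.deg := Div.deg_nonneg le_sup_right
  -- choose `r` large
  set r := E.deg.toNat with hr
  have h1 := hC r
  have h2 : idx (r • P + C - E) ≤ idx (r • P + C) := idx_mono (by
    rw [sub_le_iff_le_add]
    exact le_add_of_nonneg_right le_sup_right)
  have h3 : 0 < Module.finrank k (LL (r • P + C - E)) := by
    unfold idx at h2
    rw [Div.deg_sub] at h2
    have h4 : (r : ℤ) = E.deg := Int.toNat_of_nonneg hE0
    have h5 : (0 : ℤ) < Module.finrank k (LL (r • P + C - E)) := by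
      have h6 : (1 : ℤ) ≤ n := by exact_mod_cast hn
      nlinarith
    exact_mod_cast h5
  obtain ⟨f, hf0, hf⟩ := exists_ne_zero_mem_LL h3
  rw [mem_LL_iff hf0] at hf
  have h4 : D ≤ (r • P + C) + pdiv f := by
    refine le_sup_left.trans (show E ≤ _ from ?_)
    have : 0 ≤ r • P + C + pdiv f - E := by
      have h5 : r • P + C + pdiv (k := k) f - E = r • P + C - E + pdiv f := by abel
      rw [h5]; exact hf
    exact sub_nonneg.mp this
  have h5 := (idx_mono h4).trans_eq (idx_add_pdiv _ hf0)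
  refine h5.trans ?_
  unfold idx
  rw [Div.deg_add, Div.deg_nsmul]
  have h6 : (r : ℤ) * P.deg ≤ r * n := mul_le_mul_of_nonneg_left hPdeg (by positivity)
  linarith

variable (k F) in
lemma riemann_dim : ∃ g d₀ : ℤ, ∀ D : Div k F, d₀ ≤ D.deg →
    (Module.finrank k (LL D) : ℤ) = D.deg + 1 - g := by
  obtain ⟨B, hB⟩ := idx_bounded k F
  obtain ⟨m, ⟨D₀, hD₀⟩, hmax⟩ := Int.exists_greatest_of_bdd
    (P := fun z => ∃ D : Div k F, idx D = z) ⟨B, by rintro _ ⟨D, rfl⟩; exact hB D⟩ ⟨_, 0, rfl⟩
  refine ⟨m + 1, D₀.deg + m + 1, fun D hD => ?_⟩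
  have h1 : idx (D - D₀) ≤ m := hmax _ ⟨_, rfl⟩
  have h2 : 0 < Module.finrank k (LL (D - D₀)) := by
    unfold idx at h1
    rw [Div.deg_sub] at h1
    have : (0 : ℤ) < Module.finrank k (LL (D - D₀)) := by linarith
    exact_mod_cast this
  obtain ⟨f, hf0, hf⟩ := exists_ne_zero_mem_LL h2
  rw [mem_LL_iff hf0] at hf
  have h3 : D₀ ≤ D + pdiv f := by
    have h4 : D + pdiv (k := k) f - D₀ = D - D₀ + pdiv f := by abel
    rw [← sub_nonneg, h4]; exact hf
  have h4 := idx_mono h3
  rw [idx_add_pdiv _ hf0, hD₀] at h4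
  have h5 : idx D = m := le_antisymm (hmax _ ⟨_, rfl⟩) h4
  unfold idx at h5
  linarith

variable (k F) in
/-- Riemann's theorem for large degree, and approximation: there are `g, d₀` such that
`ℓ(D) = deg D + 1 - g` as soon as `deg D ≥ d₀`, and, if `D' ≤ D` and `deg D' ≥ d₀`, then
`L(D) → ⊕_x fil_x(-D x)/fil_x(-D' x)` is surjective. -/
theorem riemann : ∃ g d₀ : ℤ,
    (∀ D : Div k F, d₀ ≤ D.deg → (Module.finrank k (LL D) : ℤ) = D.deg + 1 - g) ∧
    (∀ D D' : Div k F, D' ≤ D → d₀ ≤ D'.deg → ∀ b : Place k F → F,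
      (∀ x, b x ∈ x.fil (- D x)) → ∃ a ∈ LL D, ∀ x, a - b x ∈ x.fil (- D' x)) := by
  classical
  obtain ⟨g, d₀, hdim⟩ := riemann_dim k F
  refine ⟨g, d₀, hdim, ?_⟩
  intro D D' hDD' hD'
  -- induction upwards from `D'`
  refine Div.le_induction (D := D') (P := fun D => ∀ b : Place k F → F,
      (∀ x, b x ∈ x.fil (- D x)) → ∃ a ∈ LL D, ∀ x, a - b x ∈ x.fil (- D' x)) ?_ ?_ D hDD'
  · intro b hb
    refine ⟨0, Submodule.zero_mem _, fun x => ?_⟩
    rw [zero_sub]
    exact (x.fil _).neg_mem (hb x)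
  · intro E x hE ih b hb
    -- one step
    have hdegE : d₀ ≤ E.deg := hD'.trans (Div.deg_mono hE)
    have hdegE1 : d₀ ≤ (E + Finsupp.single x 1).deg := hdegE.trans (Div.deg_mono (le_add_single E x))
    have h1 := hdim _ hdegE
    have h2 := hdim _ hdegE1
    have h3 := finrank_step E x
    have h4 : Module.finrank k (LinearMap.range (leadLL (E + Finsupp.single x 1) x)) =
        Module.finrank k x.ResidueField := by
      rw [Div.deg_add, Div.deg_single] at h2
      have h5 : (Module.finrank k (LinearMap.range (leadLL (E + Finsupp.single x 1) x)) : ℤ) =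
          x.degree := by
        have h6 : (Module.finrank k (LL (E + Finsupp.single x 1)) : ℤ) =
          Module.finrank k (LinearMap.range (leadLL (E + Finsupp.single x 1) x)) +
            Module.finrank k (LL E) := by exact_mod_cast h3
        linarith
      exact_mod_cast h5
    have h5 : LinearMap.range (leadLL (E + Finsupp.single x 1) x) = ⊤ :=
      Submodule.eq_top_of_finrank_eq h4
    obtain ⟨a, ha⟩ := (LinearMap.range_eq_top.mp h5)
      (x.lead (- (E + Finsupp.single x 1 : Div k F) x) ⟨b x, hb x⟩)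
    have h6 : (a : F) - b x ∈ x.fil (- E x) := by
      have h7 : x.lead (- (E + Finsupp.single x 1 : Div k F) x)
          (⟨a, mem_LL.mp a.2 x⟩ - ⟨b x, hb x⟩) = 0 := by
        rw [map_sub, sub_eq_zero]
        exact ha
      rw [x.lead_eq_zero_iff] at h7
      have h8 : -(E + Finsupp.single x 1 : Div k F) x + 1 = - E x := by
        rw [Finsupp.add_apply, Finsupp.single_eq_same]; ring
      have h9 : (a : F) - b x ∈ x.fil (-(E + Finsupp.single x 1 : Div k F) x + 1) := h7
      rwa [h8] at h9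
    -- the rest
    obtain ⟨a', ha', ha''⟩ := ih (fun y => b y - a) (fun y => by
      by_cases hy : y = x
      · rw [hy, ← neg_sub]
        exact (x.fil _).neg_mem h6
      · have h7 := hb y
        have h8 := mem_LL.mp a.2 y
        rw [Finsupp.add_apply, Finsupp.single_eq_of_ne hy, add_zero] at h7 h8
        exact (y.fil _).sub_mem h7 h8)
    refine ⟨a + a', (LL _).add_mem a.2 (LL_mono (le_add_single E x) ha'), fun y => ?_⟩
    have h7 := ha'' y
    have h8 : (a : F) + a' - b y = a' - (b y - a) := by ring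
    rw [h8]; exact h7

end Pool.Agent.WanRH
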