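import Pool.Agent.WanRH.Defs

/-!
# A function field is finite over `k(y)` for every nonconstant `y`, and the basic independence lemma
-/

namespace Pool.Agent.WanRH

open IntermediateField Polynomial

universe u v

variable {k : Type u} {F : Type v} [Field k] [Field F] [Algebra k F]

section Finite

lemma finiteDimensional_of_transcendental_aux (x : F) (hx : Transcendental k x)
    [FiniteDimensional k⟮x⟯ F] (y : F) (hy : Transcendental k y) : FiniteDimensional k⟮y⟯ F := by
  let Fyx := restrictScalars k k⟮y⟯⟮x⟯
  let Fxy := restrictScalars k k⟮x⟯⟮y⟯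
  let : Algebra k⟮y⟯ Fyx := k⟮y⟯⟮x⟯.algebra
  let : Module k⟮y⟯ Fyx := Algebra.toModule
  let : SMul k⟮y⟯ Fyx := Algebra.toSMul
  let : Algebra k⟮x⟯ Fxy := k⟮x⟯⟮y⟯.algebra
  let : Module k⟮x⟯ Fxy := Algebra.toModule
  let : SMul k⟮x⟯ Fxy := Algebra.toSMul
  have halg : IsAlgebraic k⟮y⟯ x :=
    isAlgebraic_adjoin_iff.mpr (.adjoin_singleton hx hy
      (isAlgebraic_adjoin_iff.mp (Algebra.IsAlgebraic.isAlgebraic y)))
  have : FiniteDimensional k⟮y⟯ Fyx :=
    adjoin.finiteDimensional (isAlgebraic_iff_isIntegral.mp halg)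
  have : FiniteDimensional Fyx F := by
    unfold Fyx
    rw [adjoin_simple_comm]
    have : IsScalarTower k⟮x⟯ Fxy F := isScalarTower_mid' k⟮x⟯⟮y⟯
    exact .right k⟮x⟯ Fxy F
  have : IsScalarTower k⟮y⟯ Fyx F := isScalarTower_mid' k⟮y⟯⟮x⟯
  exact .trans k⟮y⟯ Fyx F

lemma finiteDimensional_of_transcendental [IsFunctionField k F] {y : F}
    (hy : Transcendental k y) : FiniteDimensional k⟮y⟯ F := by
  obtain ⟨t, ht, hfin⟩ := IsFunctionField.exists_transcendental (k := k) (F := F)
  exact finiteDimensional_of_transcendental_aux t ht y hy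

lemma transcendental_of_notMem_range [IsFunctionField k F] {y : F}
    (hy : y ∉ Set.range (algebraMap k F)) : Transcendental k y :=
  fun h => hy (IsFunctionField.const y h)

end Finite

section Indep

/-- Key lemma: elements `c i` of a `k`-subalgebra `R ∋ y` which are `k`-linearly independent
modulo `yR` satisfy no nontrivial relation with coefficients in `k[y]`. -/
lemma poly_indep {ι : Type*} [Fintype ι] (R : Subring F) (hk : ∀ c : k, algebraMap k F c ∈ R)
    {y : F} (hy : y ≠ 0) (hyR : y ∈ R) (c : ι → F) (hc : ∀ i, c i ∈ R)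
    (hind : ∀ l : ι → k, (∃ r ∈ R, ∑ i, algebraMap k F (l i) * c i = y * r) → l = 0)
    (p : ι → k[X]) (hp : ∑ i, aeval y (p i) * c i = 0) : p = 0 := by
  have haev : ∀ q : k[X], aeval y q ∈ R := by
    intro q
    rw [Polynomial.aeval_eq_sum_range]
    refine Subring.sum_mem _ fun i _ => ?_
    rw [Algebra.smul_def]
    exact R.mul_mem (hk _) (R.pow_mem hyR _)
  have key : ∀ M : ℕ, ∀ p : ι → k[X], ∑ i, aeval y (p i) * c i = 0 → ∀ i, X ^ M ∣ p i := by
    intro M
    induction M with
    | zero => intro p _ i; simp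
    | succ M ih =>
      intro p hp
      -- reduce modulo `y`
      have h1 : ∀ i, aeval y (p i) = y * aeval y (p i).divX + algebraMap k F ((p i).coeff 0) := by
        intro i
        have := congrArg (aeval y) (Polynomial.X_mul_divX_add (p i))
        rw [map_add, map_mul, aeval_X, aeval_C] at this
        exact this.symm
      have h0 : (fun i => (p i).coeff 0) = 0 := by
        apply hind
        refine ⟨-∑ i, aeval y (p i).divX * c i, R.neg_mem (Subring.sum_mem _ fun i _ =>
          R.mul_mem (haev _) (hc i)), ?_⟩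
        have h2 : ∑ i, aeval y (p i) * c i =
            y * ∑ i, aeval y (p i).divX * c i + ∑ i, algebraMap k F ((p i).coeff 0) * c i := by
          rw [Finset.mul_sum, ← Finset.sum_add_distrib]
          refine Finset.sum_congr rfl fun i _ => ?_
          rw [h1]; ring
        rw [hp] at h2
        linear_combination -h2
      have h3 : ∀ i, p i = X * (p i).divX := by
        intro i
        have : (p i).coeff 0 = 0 := congrFun h0 i
        have h := Polynomial.X_mul_divX_add (p i)
        rw [this, C_0, add_zero] at h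
        exact h.symm
      have h4 : ∑ i, aeval y (p i).divX * c i = 0 := by
        have : y * ∑ i, aeval y (p i).divX * c i = 0 := by
          rw [Finset.mul_sum, ← hp]
          refine Finset.sum_congr rfl fun i _ => ?_
          conv_rhs => rw [h3 i]
          rw [map_mul, aeval_X]; ring
        exact (mul_eq_zero.mp this).resolve_left hy
      intro i
      have := ih (fun i => (p i).divX) h4 i
      rw [h3 i, pow_succ']
      exact mul_dvd_mul_left X this
  ext1 i
  by_contra hne
  have h1 := key ((p i).natDegree + 1) p hp i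
  have h2 := Polynomial.natDegree_le_of_dvd h1 hne
  simp at h2

lemma linearIndependent_adjoin {ι : Type*} [Fintype ι] (R : Subring F)
    (hk : ∀ c : k, algebraMap k F c ∈ R)
    {y : F} (hy : y ≠ 0) (hyR : y ∈ R) (c : ι → F) (hc : ∀ i, c i ∈ R)
    (hind : ∀ l : ι → k, (∃ r ∈ R, ∑ i, algebraMap k F (l i) * c i = y * r) → l = 0) :
    LinearIndependent k⟮y⟯ c := by
  classical
  rw [Fintype.linearIndependent_iff]
  intro g hg
  have h1 : ∀ i, ∃ r s : k[X], (g i : F) = aeval y r / aeval y s := fun i =>
    (mem_adjoin_simple_iff k (g i : F)).mp (g i).2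
  choose r s hrs using h1
  -- we may assume the denominators do not vanish
  have h2 : ∀ i, ∃ r s : k[X], (g i : F) = aeval y r / aeval y s ∧ aeval y s ≠ 0 := by
    intro i
    by_cases h : aeval y (s i) = 0
    · refine ⟨0, 1, ?_, by simp⟩
      rw [hrs i, h]; simp
    · exact ⟨r i, s i, hrs i, h⟩
  choose r s hrs hs using h2
  let S : k[X] := ∏ i, s i
  have hS : aeval y S ≠ 0 := by
    rw [map_prod]
    exact Finset.prod_ne_zero_iff.mpr fun i _ => hs i
  let p : ι → k[X] := fun i => r i * ∏ j ∈ Finset.univ.erase i, s j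
  have hp : ∀ i, aeval y (p i) = (g i : F) * aeval y S := by
    intro i
    have : S = s i * ∏ j ∈ Finset.univ.erase i, s j :=
      (Finset.mul_prod_erase Finset.univ s (Finset.mem_univ i)).symm
    rw [this, map_mul, map_mul, hrs i]
    field_simp [hs i]
  have h3 : ∑ i, aeval y (p i) * c i = 0 := by
    have : ∑ i, aeval y (p i) * c i = aeval y S * ∑ i, g i • c i := by
      rw [Finset.mul_sum]
      refine Finset.sum_congr rfl fun i _ => ?_
      rw [hp i, Algebra.smul_def]
      change (g i : F) * _ * _ = _ * ((g i : F) * _)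
      ring
    rw [this, hg, mul_zero]
  have h4 := poly_indep R hk hy hyR c hc hind p h3
  intro i
  have h5 : (g i : F) * aeval y S = 0 := by rw [← hp i, h4]; simp
  have h6 := (mul_eq_zero.mp h5).resolve_right hS
  exact_mod_cast h6

lemma card_le_finrank_adjoin [IsFunctionField k F] {ι : Type*} [Fintype ι] (R : Subring F)
    (hk : ∀ c : k, algebraMap k F c ∈ R)
    {y : F} (hy : Transcendental k y) (hyR : y ∈ R) (c : ι → F) (hc : ∀ i, c i ∈ R)
    (hind : ∀ l : ι → k, (∃ r ∈ R, ∑ i, algebraMap k F (l i) * c i = y * r) → l = 0) :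
    Fintype.card ι ≤ Module.finrank k⟮y⟯ F := by
  have := finiteDimensional_of_transcendental hy
  have hy0 : y ≠ 0 := by
    rintro rfl
    exact hy isAlgebraic_zero
  exact (linearIndependent_adjoin R hk hy0 hyR c hc hind).fintype_card_le_finrank

end Indep

end Pool.Agent.WanRH
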